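import Pool.Agent.TH296.Nut.All

/-!
Orders of regular nut graphs: for every degree at least 7, apart from 8, the orders are determined
up to finitely many.
-/

namespace Pool.Agent.Results.MP_a38f8e_co.AllLargeOrders

open Pool.Agent.TH296.Nut

theorem result :
    (∀ ρ : ℕ, 7 ≤ ρ → ρ ≠ 8 → ρ ≠ 16 → ∀ n : ℕ, 7 * ρ + 11 ≤ n →
      (n ∈ nutOrders ρ ↔ Even (n * ρ))) ∧
    (∀ n : ℕ, 641 ≤ n → n ∈ nutOrders 16) ∧
    (∀ ρ : ℕ, Even ρ → 26 ≤ ρ → ∀ n : ℕ, 4 * ρ + 21 ≤ n → n ∈ nutOrders ρ) ∧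
    (∀ ρ d : ℕ, 0 < ρ → Even ρ → Odd d → 3 ≤ d → d ∣ ρ → ∀ n : ℕ, 4 * ρ + 3 * d + 6 ≤ n →
      n ∈ nutOrders ρ) ∧
    (∀ ρ : ℕ, Odd ρ → 7 ≤ ρ → ∀ n j : ℕ, 8 ∣ n → ρ + 11 ≤ n → n + 2 * ρ * j ∈ nutOrders ρ) := by
  refine ⟨fun ρ h7 h8 h16 n hn => ⟨fun h => even_mul_of_mem h, fun h => ?_⟩, fun n hn => ?_,
    fun ρ he h26 n hn => ?_, fun ρ d h0 he hd hd3 hdv n hn => ?_, fun ρ ho h7 n j hn hn2 => ?_⟩
  · exact (good_large h7 h8 h16 hn h).mem (by omega)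
  · exact (good_sixteen hn).mem (by omega)
  · exact (good_even26 he h26 hn).mem (by omega)
  · exact (good_even_deg he h0 hd hd3 hdv hn).mem (by omega)
  · exact ((good_eight ho h7 hn hn2).steps (by omega) (by omega) j).mem (by omega)

end Pool.Agent.Results.MP_a38f8e_co.AllLargeOrders
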