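import Pool.Agent.TH991.Nut.Orders

set_option autoImplicit false

/-!
Orders of regular nut graphs: the order `ρ + 5`, the orders `t (ρ + 5) + 2 ρ j`, and all large
orders for even `ρ` not divisible by `5` (in particular for `ρ = 2 ^ k ≥ 16`).
-/

namespace Pool.Agent.Results.MP_a38f8e_co.CyclicGluing

open Pool.Agent.TH903.Nut

theorem result : ∀ ρ : ℕ, 10 ≤ ρ →
    ρ + 5 ∈ N ρ ∧
    (ρ ≠ 11 → ρ ≠ 13 → ∀ t j : ℕ, 1 ≤ t → t * (ρ + 5) + j * (2 * ρ) ∈ N ρ) ∧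
    (Even ρ → ¬ 5 ∣ ρ → ∀ n : ℕ, (ρ + 4) * (2 * ρ - 1) + (ρ + 5) ≤ n → n ∈ N ρ) := by
  intro ρ hρ
  refine ⟨Pool.Agent.TH991.Nut.order_five hρ, fun h11 h13 t j ht => ?_, fun hev h5 n hn => ?_⟩
  · exact Pool.Agent.TH991.Nut.orders hρ h11 h13 ht j
  · exact Pool.Agent.TH991.Nut.cofin_even hρ h5 hev hn

end Pool.Agent.Results.MP_a38f8e_co.CyclicGluing
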