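import Mathlib
import Pool.Agent.TH903.Nut.OddMain2
import Pool.Agent.TH903.Nut.Fowler

set_option autoImplicit false

namespace Pool.Agent.Results.MP_a38f8e_co.OddOrders

open Pool.Agent.TH903.Nut Pool.Agent.TH903.Nut.Od

/-- **Theorem.** If `8` divides `ρ ≥ 8`, then every odd `n ≥ 2ρ + 3` is the order of a
`ρ`-regular nut graph. -/
theorem result : ∀ ρ : ℕ, 8 ∣ ρ → 1 ≤ ρ → ∀ n : ℕ, Odd n → 2 * ρ + 3 ≤ n → n ∈ N ρ := by
  rintro ρ ⟨q, rfl⟩ hq n ⟨k, rfl⟩ hn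
  obtain ⟨i, rfl⟩ : ∃ i, q = i + 1 := ⟨q - 1, by omega⟩
  obtain ⟨m, rfl⟩ : ∃ m, k = m + 1 := ⟨k - 1, by omega⟩
  have hm : 8 * i + 8 ≤ m := by omega
  have : NeZero m := ⟨by omega⟩
  have h1 := mem_N_of (Gm i m hm) (isNut_Gm hm) (isReg_Gm hm)
  rw [card_V] at h1
  have e1 : 2 * (m + 1) + 1 = 2 * m + 3 := by ring
  have e2 : 8 * (i + 1) = 8 * i + 8 := by ring
  rw [e1, e2]
  exact h1

end Pool.Agent.Results.MP_a38f8e_co.OddOrders
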