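import Pool.Agent.TH417.Nut.Exact

/-!
# Regular nut graphs of order `6` modulo `12`

The graph has `6 k` vertices, `k` odd: three orbits of `k` pairs under a cyclic group of order `k`.
A sparse signed part, which is the same for all degrees up to residue classes, carries the
kernel vector, which is antisymmetric on the pairs; all the other edges join complete pairs, so they
act on the symmetric part only.  The symmetric and the antisymmetric part of the adjacency matrix
are congruent modulo `2`; modulo `2` they are injective on functions with sum `0` on the three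
orbits, and the orbit sums are controlled by two integer `3 x 3` matrices.
-/

set_option autoImplicit false

namespace Pool.Agent.Results.MP_a38f8e_co.RingsOfPairs

open Pool.Agent.TH417.Nut

/-- Regular nut graphs of order `n = 6` modulo `12`. -/
theorem result :
    (∀ ρ n : ℕ, 1 ≤ ρ → HasNut ρ n → ρ + 4 ≤ n) ∧
    (∀ ρ n : ℕ, n % 12 = 6 → 30 ≤ n → ρ % 2 = 1 → 7 ≤ ρ → (HasNut ρ n ↔ ρ + 5 ≤ n)) ∧
    (∀ ρ n : ℕ, n % 12 = 6 →
      ((ρ % 4 = 3 ∧ 7 ≤ ρ ∧ ρ + 7 ≤ n) ∨ (ρ % 4 = 1 ∧ 5 ≤ ρ ∧ ρ + 5 ≤ n ∧ 30 ≤ n) ∨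
        (ρ % 4 = 2 ∧ 10 ≤ ρ ∧ ρ + 8 ≤ n ∧ 30 ≤ n ∧ ¬ (n = 30 ∧ ρ = 18))) → HasNut ρ n) :=
  ⟨lower, exact, main⟩

end Pool.Agent.Results.MP_a38f8e_co.RingsOfPairs
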